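import Pool.Agent.Lib.MP_b2e238_gt.R.Ad
import Pool.Agent.Lib.MP_b2e238_gt.O.Page
import Pool.Agent.Lib.MP_b2e238_gt.Z.Slide

/-! Families of diffeomorphisms of the three-sphere: cut-off, chart, projective action. -/

open scoped ContDiff Topology
open Set Metric

noncomputable section

namespace Pool.Agent.Lib.MP_b2e238_gt

/-- Uniformity in a periodic parameter. -/
theorem efa_unif {E : Type} [TopologicalSpace E] {a : E} {p : ℝ × E → Prop}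
    (per : ∀ t u, p (t + 1, u) ↔ p (t, u)) (h : ∀ t, ∀ᶠ x in 𝓝 (t, a), p x) :
    ∀ᶠ u in 𝓝 a, ∀ t, p (t, u) := by
  have c : ∀ᶠ u in 𝓝 a, ∀ t ∈ Icc (0 : ℝ) 1, p (t, u) :=
    isCompact_Icc.eventually_forall_of_forall_eventually fun t _ =>
      (continuous_swap.tendsto (a, t)).eventually (h t)
  filter_upwards [c] with u k t
  have e := per_int (c := fun t => p (t, u)) (fun t => propext (per t u)) (Int.fract t) ⌊t⌋
  rw [Int.fract_add_floor] at e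
  exact e ▸ k _ ⟨Int.fract_nonneg _, (Int.fract_lt_one _).le⟩

/-- Cut-off of a periodic family of germs tangent to the identity. -/
theorem efa_cut {g : ℝ × ℝ × ℂ → ℝ × ℂ} (per : ∀ t u, g (t + 1, u) = g (t, u))
    (c : ∀ t, ∀ᶠ x in 𝓝 (t, (0 : ℝ × ℂ)), ContDiffAt ℝ ∞ g x) (z : ∀ t, g (t, 0) = 0)
    (n : ∀ t, HasFDerivAt (fun u => g (t, u)) (0 : ℝ × ℂ →L[ℝ] ℝ × ℂ) 0) :
    ∃ K G : ℝ × ℝ × ℂ → ℝ × ℂ, ContDiff ℝ ∞ K ∧ ContDiff ℝ ∞ G ∧
      (∀ t u, G (t, K (t, u)) = u ∧ K (t, G (t, u)) = u) ∧ (∀ t u, K (t + 1, u) = K (t, u)) ∧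
      (∀ t u, 1 ≤ ‖u‖ → K (t, u) = u) ∧ ∀ᶠ u in 𝓝 (0 : ℝ × ℂ), ∀ t, K (t, u) = u + g (t, u) := by
  have par (x : ℝ × ℝ × ℂ) (k : ContDiffAt ℝ ∞ g x) : HasFDerivAt (fun u => g (x.1, u))
      ((fderiv ℝ g x).comp (.inr ℝ ℝ (ℝ × ℂ))) x.2 :=
    (k.differentiableAt (by simp)).hasFDerivAt.comp x.2 (hasFDerivAt_prodMk_right x.1 x.2)
  have ev : ∀ᶠ u in 𝓝 (0 : ℝ × ℂ), ∀ t, ContDiffAt ℝ ∞ g (t, u) ∧
      ‖fderiv ℝ (fun u => g (t, u)) u‖ < 1 / 4 := by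
    refine efa_unif (p := fun x => ContDiffAt ℝ ∞ g x ∧
      ‖fderiv ℝ (fun u => g (x.1, u)) x.2‖ < 1 / 4) (fun t u => ?_) fun t => ?_
    · have e : (fun u => g (t + 1, u)) = fun u => g (t, u) := funext (per t)
      have e1 : g = fun x => g (x + (1, 0)) := funext fun x =>
        (per x.1 x.2).symm.trans (congrArg g (Prod.ext rfl (add_zero _).symm))
      have e2 : g = fun x => g (x - (1, 0)) := funext fun x => by
        have := per (x.1 - 1) x.2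
        rw [sub_add_cancel] at this
        exact this.trans (congrArg g (Prod.ext rfl (sub_zero _).symm))
      refine and_congr ⟨fun k => ?_, fun k => ?_⟩ (by simp only [e])
      · rw [e1]
        exact ContDiffAt.comp (t, u) (by simpa using k) (contDiffAt_id.add contDiffAt_const)
      · rw [e2]
        exact ContDiffAt.comp (t + 1, u) (by simpa using k) (contDiffAt_id.sub contDiffAt_const)
    · have w := (c t).self_of_nhds
      have c1 : ContinuousAt (fun x => ‖(fderiv ℝ g x).comp (.inr ℝ ℝ (ℝ × ℂ))‖) (t, 0) :=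
        ((w.fderiv_right (m := 0) (by simp)).continuousAt.clm_comp continuousAt_const).norm
      have c2 := c1.eventually_lt (continuousAt_const (y := (1 / 4 : ℝ))) (by
        rw [(par _ w).unique (n t), norm_zero]; norm_num)
      filter_upwards [c t, c2] with x a b using ⟨a, by rwa [(par x a).fderiv]⟩
  obtain ⟨r, r0, hr⟩ := Metric.eventually_nhds_iff_ball.1 ev
  obtain ⟨η, s, e1, e0, -, b⟩ := rad_slow (lt_min one_pos (half_pos r0)) one_pos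
  let K : ℝ × ℝ × ℂ → ℝ × ℂ := fun x => x.2 + η x.2 • g x
  have out (t u) (h : min 1 (r / 2) ≤ ‖u‖) : K (t, u) = u := by simp [K, e0 u h]
  have far (u) (h : u ∉ ball (0 : ℝ × ℂ) r) : ∀ᶠ y in 𝓝 u, ∀ t, K (t, y) = y := by
    have : r / 2 < ‖u‖ := by
      rw [mem_ball_zero_iff, not_lt] at h
      linarith
    filter_upwards [continuous_norm.continuousAt.eventually (Ioi_mem_nhds this)] with y k t using
      out t y ((min_le_right _ _).trans (le_of_lt k))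
  have sK : ContDiff ℝ ∞ K := contDiff_iff_contDiffAt.2 fun x => by
    by_cases h : x.2 ∈ ball (0 : ℝ × ℂ) r
    · exact contDiffAt_snd.add ((s.contDiffAt.comp x contDiffAt_snd).smul (hr _ h x.1).1)
    · refine contDiffAt_snd.congr_of_eventuallyEq ?_
      filter_upwards [continuousAt_snd.eventually (far _ h)] with y k using k y.1
  have dg (t u) (h : u ∈ ball (0 : ℝ × ℂ) r) : DifferentiableAt ℝ (fun u => g (t, u)) u :=
    (par (t, u) (hr u h t).1).differentiableAt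
  obtain ⟨G, sG, hG⟩ := near_id_par (F := K) isOpen_univ sK.contDiffOn fun t _ =>
    ⟨1 / 2, by norm_num, fun u => by
    by_cases h : u ∈ ball (0 : ℝ × ℂ) r
    · have d : HasFDerivAt (fun u => K (t, u)) _ u := (hasFDerivAt_id u).add
        ((s.differentiable (by simp) u).hasFDerivAt.smul (dg t u h).hasFDerivAt)
      have k : ‖g (t, u)‖ ≤ 1 / 4 * ‖u‖ := by
        simpa [z] using (convex_ball (0 : ℝ × ℂ) r).norm_image_sub_le_of_norm_fderiv_le (dg t)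
          (fun x k => (hr x k t).2.le) (mem_ball_self r0) h
      rw [d.fderiv, ContinuousLinearMap.one_def, add_sub_cancel_left]
      refine (norm_add_le _ _).trans ?_
      rw [norm_smul, ContinuousLinearMap.norm_smulRight_apply]
      have a1 := mul_le_mul (b u).1 (hr u h t).2.le (norm_nonneg _) zero_le_one
      have a2 := mul_le_mul_of_nonneg_left k (norm_nonneg (fderiv ℝ η u))
      rw [Real.norm_eq_abs]
      nlinarith [(b u).2]
    · have : (fun u => K (t, u)) =ᶠ[𝓝 u] id := (far u h).mono fun y k => k t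
      rw [this.fderiv_eq, fderiv_id]
      simp [ContinuousLinearMap.one_def]⟩
  rw [univ_prod_univ, contDiffOn_univ] at sG
  refine ⟨K, G, sK, sG, fun t => hG t trivial, fun t u => by simp only [K, per],
    fun t u h => out t u ((min_le_left _ _).trans h), e1.mono fun u h t => by simp [K, h]⟩

theorem efa_pos {a : (ℝ × ℂ) × ℝ} (h : a ≠ 0) : 0 < pgQ a := by
  refine lt_of_le_of_ne (by unfold pgQ; positivity) fun e => h ?_
  have e' : 0 = a.1.1 ^ 2 + ‖a.1.2‖ ^ 2 + ‖a.2‖ ^ 2 := e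
  have a1 : a.1.1 ^ 2 = 0 := by nlinarith [sq_nonneg a.1.1, sq_nonneg ‖a.1.2‖, sq_nonneg ‖a.2‖]
  have a2 : ‖a.1.2‖ ^ 2 = 0 := by nlinarith [sq_nonneg a.1.1, sq_nonneg ‖a.1.2‖, sq_nonneg ‖a.2‖]
  have a3 : ‖a.2‖ ^ 2 = 0 := by nlinarith [sq_nonneg a.1.1, sq_nonneg ‖a.1.2‖, sq_nonneg ‖a.2‖]
  exact Prod.ext (Prod.ext (pow_eq_zero_iff two_ne_zero |>.1 a1)
    (norm_eq_zero.1 (pow_eq_zero_iff two_ne_zero |>.1 a2)))
    (norm_eq_zero.1 (pow_eq_zero_iff two_ne_zero |>.1 a3))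

theorem efa_ne {a : (ℝ × ℂ) × ℝ} (h : a ∈ Sph ℝ) : a ≠ 0 := by
  rintro rfl
  simp [Sph] at h

theorem efa_one (u : ℝ × ℂ) : 0 < pgQ ((u, 1) : (ℝ × ℂ) × ℝ) := efa_pos (by simp)

theorem efa_lin (M : (ℝ × ℂ) × ℝ →L[ℝ] (ℝ × ℂ) × ℝ) {a : (ℝ × ℂ) × ℝ} (h : a ≠ 0) :
    nrm (M (nrm a)) = nrm (M a) := by
  rw [nrm_eq a, map_smul, nrm_smul (inv_pos.2 (Real.sqrt_pos.2 (efa_pos h)))]

theorem efa_half {M N : ℝ → (ℝ × ℂ) × ℝ →L[ℝ] (ℝ × ℂ) × ℝ} (c : ContDiff ℝ ∞ M)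
    (e : ∀ t y, N t (M t y) = y) :
    ContDiffOn ℝ ∞ (fun x : ℝ × (ℝ × ℂ) × ℝ => (x.1, nrm (M x.1 x.2))) (univ ×ˢ Sph ℝ) ∧
      MapsTo (fun x : ℝ × (ℝ × ℂ) × ℝ => (x.1, nrm (M x.1 x.2))) (univ ×ˢ Sph ℝ)
        (univ ×ˢ Sph ℝ) ∧ ∀ t, ∀ y ∈ Sph ℝ, nrm (N t (nrm (M t y))) = y := by
  have n (t y) (h : y ∈ Sph ℝ) : M t y ≠ 0 := fun k => efa_ne h (by rw [← e t y, k, map_zero])
  refine ⟨fun x h => ?_, fun x h => ⟨trivial, nrm_mem (efa_pos (n _ _ h.2))⟩, fun t y h => ?_⟩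
  · exact (contDiffAt_fst.prodMk ((contDiffAt_nrm sqR (efa_pos (n _ _ h.2))).comp x
      (f := fun x : ℝ × (ℝ × ℂ) × ℝ => M x.1 x.2)
      ((c.contDiffAt.comp x contDiffAt_fst).clm_apply contDiffAt_snd))).contDiffWithinAt
  · rw [efa_lin _ (n t y h), e, nrm_self h]

/-- The projective action of a family of linear maps. -/
theorem efa_proj {M N : ℝ → (ℝ × ℂ) × ℝ →L[ℝ] (ℝ × ℂ) × ℝ} (c : ContDiff ℝ ∞ M)
    (c' : ContDiff ℝ ∞ N) (e : ∀ t y, N t (M t y) = y) (e' : ∀ t y, M t (N t y) = y) :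
    Dif (univ ×ˢ Sph ℝ) (univ ×ˢ Sph ℝ) (fun x : ℝ × (ℝ × ℂ) × ℝ => (x.1, nrm (M x.1 x.2)))
      fun x => (x.1, nrm (N x.1 x.2)) :=
  have a := efa_half c e
  have b := efa_half c' e'
  ⟨a.1, b.1, a.2.1, b.2.1, fun _ h => Prod.ext rfl (a.2.2 _ _ h.2),
    fun _ h => Prod.ext rfl (b.2.2 _ _ h.2)⟩

theorem efa_inv {M : ℝ → (ℝ × ℂ) × ℝ →L[ℝ] (ℝ × ℂ) × ℝ} (c : ContDiff ℝ ∞ M)
    (i : ∀ t, Function.Injective (M t)) : ∃ N : ℝ → (ℝ × ℂ) × ℝ →L[ℝ] (ℝ × ℂ) × ℝ,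
      ContDiff ℝ ∞ N ∧ (∀ t y, N t (M t y) = y) ∧ (∀ t y, M t (N t y) = y) ∧
      ∀ s t, M s = M t → N s = N t := by
  have u (t) : IsUnit (M t) := ContinuousLinearMap.isUnit_iff_bijective.2
    ⟨i t, LinearMap.surjective_of_injective (f := (M t).toLinearMap) (i t)⟩
  refine ⟨fun t => Ring.inverse (M t), contDiff_iff_contDiffAt.2 fun t => ?_,
    fun t y => congrArg (· y) (Ring.inverse_mul_cancel _ (u t)),
    fun t y => congrArg (· y) (Ring.mul_inverse_cancel _ (u t)), fun s t h => by simp only [h]⟩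
  exact (contDiffAt_ringInverse ℝ (u t).unit).comp t c.contDiffAt

theorem efa_chart (u : ℝ × ℂ) : 0 < (nrm ((u, 1) : (ℝ × ℂ) × ℝ)).2 ∧
    (nrm ((u, 1) : (ℝ × ℂ) × ℝ)).2⁻¹ • (nrm ((u, 1) : (ℝ × ℂ) × ℝ)).1 = u := by
  have p := Real.sqrt_pos.2 (efa_one u)
  simp only [nrm_eq, Prod.smul_fst, Prod.smul_snd, smul_eq_mul, mul_one, inv_inv]
  exact ⟨inv_pos.2 p, smul_inv_smul₀ p.ne' u⟩

theorem efa_back {y : (ℝ × ℂ) × ℝ} (h : 0 < y.2) : nrm (y.2⁻¹ • y.1, (1 : ℝ)) = nrm y := by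
  rw [← nrm_smul (inv_pos.2 h) y]
  exact congrArg nrm (Prod.ext rfl (inv_mul_cancel₀ h.ne').symm)

theorem efa_sm : ContDiff ℝ ∞ fun u : ℝ × ℂ => nrm ((u, 1) : (ℝ × ℂ) × ℝ) :=
  contDiff_iff_contDiffAt.2 fun x => (contDiffAt_nrm sqR (efa_one x)).comp x
    (f := fun x : ℝ × ℂ => ((x, 1) : (ℝ × ℂ) × ℝ)) (contDiffAt_id.prodMk contDiffAt_const)

theorem efa_dif : Dif univ {y | y ∈ Sph ℝ ∧ 0 < y.2}
    (fun u : ℝ × ℂ => nrm ((u, 1) : (ℝ × ℂ) × ℝ)) fun y => y.2⁻¹ • y.1 :=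
  ⟨efa_sm.contDiffOn, (contDiffOn_snd.inv fun _ h => h.2.ne').smul contDiffOn_fst,
    fun _ _ => ⟨nrm_mem (efa_one _), (efa_chart _).1⟩, mapsTo_univ _ _,
    fun _ _ => (efa_chart _).2, fun _ h => (efa_back h.2).trans (nrm_self h.1)⟩

/-- A family of diffeomorphisms with support in the unit ball, carried along a chart. -/
theorem efa_push {V : Type} [NormedAddCommGroup V] [NormedSpace ℝ V] {S A : Set V}
    {c : ℝ × ℂ → V} {c' : V → ℝ × ℂ} (d : Dif univ A c c') (oA : Opn A S)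
    {K G : ℝ × ℝ × ℂ → ℝ × ℂ} (sK : ContDiff ℝ ∞ K) (sG : ContDiff ℝ ∞ G)
    (i : ∀ t u, G (t, K (t, u)) = u ∧ K (t, G (t, u)) = u) (per : ∀ t u, K (t + 1, u) = K (t, u))
    (o : ∀ t u, 1 ≤ ‖u‖ → K (t, u) = u) : ∃ H H' : ℝ × V → ℝ × V,
      Dif (univ ×ˢ S) (univ ×ˢ S) H H' ∧ (∀ x, (H x).1 = x.1) ∧
      (∀ t y, (H (t + 1, y)).2 = (H (t, y)).2) ∧ ∀ t u, (H (t, c u)).2 = c (K (t, u)) := by
  have d1 := (Dif.refl (univ : Set ℝ)).prod d
  have d2 : Dif (univ ×ˢ univ) (univ ×ˢ univ) (fun x : ℝ × ℝ × ℂ => (x.1, K x))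
      fun x => (x.1, G x) :=
    ⟨(contDiff_fst.prodMk sK).contDiffOn, (contDiff_fst.prodMk sG).contDiffOn,
      fun _ _ => ⟨trivial, trivial⟩, fun _ _ => ⟨trivial, trivial⟩,
      fun x _ => Prod.ext rfl (i _ _).1, fun x _ => Prod.ext rfl (i _ _).2⟩
  have cC : IsClosed (c '' closedBall (0 : ℝ × ℂ) 1) :=
    ((isCompact_closedBall _ _).image (contDiffOn_univ.1 d.cF).continuous).isClosed
  have d3 := ((d1.symm.trans d2).trans d1).extend (M := univ ×ˢ S)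
    (K := univ ×ˢ (c '' closedBall (0 : ℝ × ℂ) 1)) ((Opn.refl _).prod oA)
    (by rintro ⟨t, _⟩ ⟨-, u, -, rfl⟩; exact ⟨trivial, d.mF trivial⟩)
    (opn_iff.2 ⟨_, (isClosed_univ.prod cC).isOpen_compl, rfl⟩) fun x h => by
      have e := d.fg x.2 h.1.2
      have : 1 ≤ ‖c' x.2‖ := not_lt.1 fun k =>
        h.2 ⟨trivial, _, mem_closedBall_zero_iff.2 k.le, e⟩
      exact Prod.ext rfl ((congrArg c (o x.1 _ this)).trans e)
  refine ⟨_, _, d3, fun x => ?_, fun t y => ?_, fun t u => ?_⟩ <;> unfold piecewise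
  · by_cases m : x ∈ (univ : Set ℝ) ×ˢ A
    · rw [if_pos m]; rfl
    · rw [if_neg m]; rfl
  · by_cases m : y ∈ A
    · rw [if_pos (mk_mem_prod (mem_univ _) m), if_pos (mk_mem_prod (mem_univ _) m)]
      exact congrArg c (per _ _)
    · rw [if_neg (fun k : _ ∈ (univ : Set ℝ) ×ˢ A => m k.2),
        if_neg (fun k : _ ∈ (univ : Set ℝ) ×ˢ A => m k.2)]
      rfl
  · rw [if_pos (mk_mem_prod (mem_univ _) (d.mF (mem_univ u)))]
    exact congrArg (fun u => c (K (t, u))) (d.gf u trivial)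

end Pool.Agent.Lib.MP_b2e238_gt
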