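import Pool.Agent.Lib.MP_b2e238_gt.E.FA

/-! Standard position at the pole and the trivialisation of the mapping torus of the twist. -/

open scoped ContDiff Topology
open Set Metric

noncomputable section

namespace Pool.Agent.Lib.MP_b2e238_gt

variable {ν : ℝ × ℂ → (ℝ × ℂ) × ℝ} {r : ℝ}

theorem efb_at (h : Tube (Sph ℝ) ν r) {u : ℝ × ℂ} (k : ‖u.2‖ < r) : ContDiffAt ℝ ∞ ν u :=
  h.smooth.contDiffAt ((isOpen_univ.prod isOpen_ball).mem_nhds ⟨trivial, mem_ball_zero_iff.2 k⟩)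

/-- The tangent space and the position vector span the ambient space. -/
theorem efb_inj (h : Tube (Sph ℝ) ν r) {x : ℝ × ℂ} (k : ‖x.2‖ < r) {u : ℝ × ℂ} {s : ℝ}
    (e : fderiv ℝ ν x u + s • ν x = 0) : u = 0 ∧ s = 0 := by
  have dq := ((contDiff_pgQ sqR).differentiable (by simp) (ν x)).hasFDerivAt
  have d1 := dq.comp x ((efb_at h k).differentiableAt (by simp)).hasFDerivAt
  have d2 : HasFDerivAt (pgQ ∘ ν) (0 : ℝ × ℂ →L[ℝ] ℝ) x := by
    refine (hasFDerivAt_const (1 : ℝ) x).congr_of_eventuallyEq ?_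
    filter_upwards [(isOpen_lt continuous_snd.norm continuous_const).mem_nhds k] with y m using
      h.mem y.1 m
  have a1 : fderiv ℝ pgQ (ν x) (fderiv ℝ ν x u) = 0 := congrArg (· u) (d1.unique d2)
  have d3 : HasDerivAt (fun τ : ℝ => pgQ (τ • ν x)) (fderiv ℝ pgQ (ν x) ((1 : ℝ) • ν x)) 1 :=
    (HasFDerivAt.comp_hasDerivAt_of_eq (1 : ℝ) dq ((hasDerivAt_id (1 : ℝ)).smul_const (ν x))
      (one_smul ℝ _).symm :)
  have q : pgQ (ν x) = 1 := h.mem x.1 k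
  simp only [pgQ_smul, q, mul_one, one_smul] at d3
  have a2 : fderiv ℝ pgQ (ν x) (ν x) = 2 := by
    have := d3.unique (hasDerivAt_pow 2 (1 : ℝ))
    simpa using this
  have a3 := congrArg (fderiv ℝ pgQ (ν x)) e
  rw [map_add, map_smul, a1, a2, map_zero, zero_add, smul_eq_mul] at a3
  obtain rfl : s = 0 := by linarith
  rw [zero_smul, add_zero] at e
  exact ⟨(injective_iff_map_eq_zero _).1 ((h.2 _).2.2.2.2 x (slide_mem x.1 k)).1 u e, rfl⟩

/-- The linear frames along the core circle. -/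
theorem efb_frame (h : Tube (Sph ℝ) ν r) (p : 0 < r) :
    ∃ M N : ℝ → (ℝ × ℂ) × ℝ →L[ℝ] (ℝ × ℂ) × ℝ, ContDiff ℝ ∞ M ∧ ContDiff ℝ ∞ N ∧
      (∀ t y, N t (M t y) = y) ∧ (∀ t y, M t (N t y) = y) ∧ (∀ t, M (t + 1) = M t) ∧
      (∀ t, N (t + 1) = N t) ∧ ∀ t y, M t y = fderiv ℝ ν (-t, 0) y.1 + y.2 • ν (-t, 0) := by
  let M : ℝ → (ℝ × ℂ) × ℝ →L[ℝ] (ℝ × ℂ) × ℝ := fun t =>
    (fderiv ℝ ν (-t, 0)).comp (.fst ℝ _ _) + (ContinuousLinearMap.snd ℝ _ _).smulRight (ν (-t, 0))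
  have e (t y) : M t y = fderiv ℝ ν (-t, 0) y.1 + y.2 • ν (-t, 0) := rfl
  have k (t : ℝ) : ‖((t, 0) : ℝ × ℂ).2‖ < r := by simpa using p
  have c0 : ContDiff ℝ ∞ fun t : ℝ => ((-t, 0) : ℝ × ℂ) := contDiff_neg.prodMk contDiff_const
  have c : ContDiff ℝ ∞ M := contDiff_clm_apply_iff.2 fun y => contDiff_iff_contDiffAt.2 fun t =>
    (((((efb_at h (k (-t))).fderiv_right (m := ∞) (by simp)).comp t
      c0.contDiffAt).clm_apply contDiffAt_const).add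
        (((efb_at h (k (-t))).comp t c0.contDiffAt).const_smul y.2) :)
  obtain ⟨N, n1, n2, n3, n4⟩ := efa_inv c fun t => (injective_iff_map_eq_zero _).2 fun y m =>
    Prod.ext (efb_inj h (k _) m).1 (efb_inj h (k _) m).2
  have per (t) : M (t + 1) = M t := by
    have e1 : (fun x => ν (x + (1, 0))) = ν := funext fun x =>
      (congrArg ν (show x + (1, 0) = (x.1 + 1, x.2) from Prod.ext rfl (add_zero _))).trans
        (h.1 x.1 x.2)
    have e2 : ((-(t + 1), 0) : ℝ × ℂ) + (1, 0) = (-t, 0) := Prod.ext (by simp) (by simp)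
    have e3 : fderiv ℝ ν (-(t + 1), 0) = fderiv ℝ ν (-t, 0) := by
      rw [← e2, ← fderiv_comp_add_right, e1]
    have e4 : ν (-(t + 1), 0) = ν (-t, 0) := by rw [← e2]; exact (congrFun e1 _).symm
    simp only [M, e3, e4]
  exact ⟨M, N, c, n1, n2, n3, per, fun t => n4 _ _ (per t), e⟩

/-- A periodic family of diffeomorphisms that follows the core circle. -/
theorem efb_fam (h : Tube (Sph ℝ) ν r) (p : 0 < r) :
    ∃ B B' : ℝ × (ℝ × ℂ) × ℝ → ℝ × (ℝ × ℂ) × ℝ, Dif (univ ×ˢ Sph ℝ) (univ ×ˢ Sph ℝ) B B' ∧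
      (∀ x, (B x).1 = x.1) ∧ (∀ t y, (B (t + 1, y)).2 = (B (t, y)).2) ∧
      ∀ᶠ u in 𝓝 (0 : ℝ × ℂ), ∀ t, (B (t, nrm (u, 1))).2 = ν (u.1 - t, u.2) := by
  obtain ⟨M, N, cM, cN, nm, mn, pM, pN, e⟩ := efb_frame h p
  obtain ⟨Y, hY⟩ : ∃ Y : ℝ × ℝ × ℂ → (ℝ × ℂ) × ℝ, ∀ x, Y x = N x.1 (ν (x.2 + (-x.1, 0))) :=
    ⟨_, fun _ => rfl⟩
  have k (x : ℝ × ℝ × ℂ) (m : ‖x.2.2‖ < r) : ‖(x.2 + (-x.1, 0)).2‖ < r := by simpa using m
  have k0 (t : ℝ) : ‖((t, 0) : ℝ × ℝ × ℂ).2.2‖ < r := by simpa using p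
  have cY (x : ℝ × ℝ × ℂ) (m : ‖x.2.2‖ < r) : ContDiffAt ℝ ∞ Y x := by
    rw [funext hY]
    exact (cN.contDiffAt.comp x contDiffAt_fst).clm_apply ((efb_at h (k x m)).comp x
      (f := fun x : ℝ × ℝ × ℂ => x.2 + (-x.1, 0))
      (contDiffAt_snd.add (contDiffAt_fst.neg.prodMk contDiffAt_const)))
  have pY (t u) : Y (t + 1, u) = Y (t, u) := by
    rw [hY, hY, pN]
    exact congrArg (N t) ((h.1 _ _).symm.trans (congrArg ν (Prod.ext (by simp; ring) rfl)))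
  have zY (t) : Y (t, 0) = (0, 1) := by
    rw [hY, ← nm t (0, 1), e]
    simp
  have dY (t) : HasFDerivAt (fun u => Y (t, u)) (.inl ℝ (ℝ × ℂ) ℝ) 0 := by
    have d0 : HasFDerivAt ν (fderiv ℝ ν (-t, 0)) (0 + (-t, 0)) := by
      rw [zero_add]
      exact ((efb_at h (u := (-t, 0)) (by simpa using p)).differentiableAt (by simp)).hasFDerivAt
    have d1 := (N t).hasFDerivAt.comp 0 (d0.comp 0 ((hasFDerivAt_id 0).add_const (-t, 0)))
    simp only [hY]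
    refine d1.congr_fderiv (ContinuousLinearMap.ext fun u => ?_)
    have := nm t (u, 0)
    rw [e, zero_smul, add_zero] at this
    exact this
  have ev (t) : ∀ᶠ x in 𝓝 (t, (0 : ℝ × ℂ)), ‖x.2.2‖ < r ∧ 0 < (Y x).2 :=
    Filter.Eventually.and
      ((isOpen_lt continuous_snd.snd.norm continuous_const).mem_nhds (k0 t))
      (continuousAt_const.eventually_lt (cY _ (k0 t)).continuousAt.snd (by simp [zY]))
  obtain ⟨K, G, sK, sG, i, pK, o, eK⟩ := efa_cut (g := fun x => (Y x).2⁻¹ • (Y x).1 - x.2)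
    (fun t u => by simp only [pY])
    (fun t => (ev t).mono fun x m => (((cY x m.1).snd.inv m.2.ne').smul (cY x m.1).fst).sub
      contDiffAt_snd) (fun t => by simp [zY]) fun t => by
      have d1 := ((hasDerivAt_inv (x := (Y (t, 0)).2) (by simp [zY])).comp_hasFDerivAt
        (0 : ℝ × ℂ) (dY t).snd).smul (dY t).fst
      refine (d1.sub (hasFDerivAt_id 0)).congr_fderiv (ContinuousLinearMap.ext fun u => ?_)
      simp [zY]
  obtain ⟨H, H', dH, h1, pH, eH⟩ := efa_push efa_dif (S := Sph ℝ)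
    (opn_iff.2 ⟨{y | 0 < y.2}, isOpen_lt continuous_const continuous_snd, rfl⟩) sK sG i pK o
  refine ⟨_, _, dH.trans (efa_proj cM cN nm mn), h1, fun t y => ?_, ?_⟩
  · change nrm (M (H (t + 1, y)).1 (H (t + 1, y)).2) = nrm (M (H (t, y)).1 (H (t, y)).2)
    rw [h1, h1, pH, pM]
  · filter_upwards [eK, efa_unif (p := fun x => ‖x.2.2‖ < r ∧ 0 < (Y x).2)
      (fun t u => by simp only [pY]) ev] with u a b t
    change nrm (M (H (t, nrm (u, 1))).1 (H (t, nrm (u, 1))).2) = _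
    have n : Y (t, u) ≠ 0 := fun z => (b t).2.ne' (congrArg Prod.snd z)
    rw [h1, eH, a, add_sub_cancel, efa_back (b t).2, efa_lin _ n, hY, mn,
      nrm_self (h.mem _ (k (t, u) (b t).1))]
    exact congrArg ν (Prod.ext (sub_eq_add_neg _ _).symm (add_zero _))

/-- The same, fibre by fibre. -/
theorem efb_fib (h : Tube (Sph ℝ) ν r) (p : 0 < r) :
    ∃ b b' : ℝ × (ℝ × ℂ) × ℝ → (ℝ × ℂ) × ℝ, ContDiffOn ℝ ∞ b (univ ×ˢ Sph ℝ) ∧
      ContDiffOn ℝ ∞ b' (univ ×ˢ Sph ℝ) ∧ (∀ t, ∀ y ∈ Sph ℝ, b (t, y) ∈ Sph ℝ ∧ b' (t, y) ∈ Sph ℝ ∧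
        b' (t, b (t, y)) = y ∧ b (t, b' (t, y)) = y ∧ b' (t + 1, y) = b' (t, y)) ∧
      ∀ᶠ u in 𝓝 (0 : ℝ × ℂ), ∀ t, b' (t, ν (u.1 - t, u.2)) = nrm (u, 1) := by
  obtain ⟨B, B', d, h1, per, e⟩ := efb_fam h p
  have a1 (t y) (m : y ∈ Sph ℝ) : (B' (t, (B (t, y)).2)).2 = y :=
    congrArg Prod.snd ((congrArg B' (show (t, (B (t, y)).2) = B (t, y) from
      Prod.ext (h1 (t, y)).symm rfl)).trans (d.gf (t, y) ⟨trivial, m⟩))
  have a2 (t y) (m : y ∈ Sph ℝ) : (B (t, (B' (t, y)).2)).2 = y := by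
    have f := d.fg (t, y) ⟨trivial, m⟩
    have : (B' (t, y)).1 = t := (h1 _).symm.trans (congrArg Prod.fst f)
    exact congrArg Prod.snd ((congrArg B (show (t, (B' (t, y)).2) = B' (t, y) from
      Prod.ext this.symm rfl)).trans f)
  have a3 (t y) (m : y ∈ Sph ℝ) : (B' (t, y)).2 ∈ Sph ℝ := (d.mG (x := (t, y)) ⟨trivial, m⟩).2
  refine ⟨fun x => (B x).2, fun x => (B' x).2, d.cF.snd, d.cG.snd, fun t y m =>
    ⟨(d.mF (x := (t, y)) ⟨trivial, m⟩).2, a3 t y m, a1 t y m, a2 t y m, ?_⟩,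
    e.mono fun u k t => ?_⟩
  · have := a1 (t + 1) _ (a3 t y m)
    rwa [per, a2 t y m] at this
  · rw [← k t]
    exact a1 t _ (nrm_mem (efa_one u))

theorem ef_pole (h : Tube (Sph ℝ) ν r) (p : 0 < r) : ∃ D D', Dif (Sph ℝ) (Sph ℝ) D D' ∧
    ∀ᶠ u in 𝓝 (0 : ℝ × ℂ), D (ν u) = nrm (u, 1) := by
  obtain ⟨b, b', c, c', i, e⟩ := efb_fib h p
  have m : MapsTo (fun y => ((0 : ℝ), y)) (Sph ℝ) (univ ×ˢ Sph ℝ) := fun _ k => ⟨trivial, k⟩
  refine ⟨fun y => b' (0, y), fun y => b (0, y),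
    ⟨c'.comp (contDiff_prodMk_right 0).contDiffOn m, c.comp (contDiff_prodMk_right 0).contDiffOn m,
      fun y k => (i 0 y k).2.1, fun y k => (i 0 y k).1, fun y k => (i 0 y k).2.2.2.1,
      fun y k => (i 0 y k).2.2.1⟩, e.mono fun u k => ?_⟩
  simpa using k 0

/-- Extension of a family from the sphere to the ambient space. -/
theorem efb_ext {F : ℝ × (ℝ × ℂ) × ℝ → (ℝ × ℂ) × ℝ} (c : ContDiffOn ℝ ∞ F (univ ×ˢ Sph ℝ)) :
    ∃ f : ℝ → (ℝ × ℂ) × ℝ → (ℝ × ℂ) × ℝ, ContDiff ℝ ∞ f.uncurry ∧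
      (∀ t, ∀ y ∈ Sph ℝ, f t y = F (t, y)) ∧ ∀ t y, F (t, nrm y) = nrm y → f t y = y := by
  have cq : ContDiff ℝ ∞ fun x : ℝ × (ℝ × ℂ) × ℝ => pgQ x.2 := (contDiff_pgQ sqR).comp contDiff_snd
  refine ⟨fun t y => y + Real.smoothTransition (2 * pgQ y - 1) • (F (t, nrm y) - nrm y),
    contDiff_iff_contDiffAt.2 fun x => ?_, fun t y m => ?_, fun t y m => by simp [m]⟩
  · rcases lt_or_ge (pgQ x.2) (1 / 2) with k | k
    · refine contDiffAt_snd.congr_of_eventuallyEq ?_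
      filter_upwards [(isOpen_lt cq.continuous continuous_const).mem_nhds k] with y m
      have m' : pgQ y.2 < 1 / 2 := m
      simp [Function.uncurry, Real.smoothTransition.zero_of_nonpos
        (show 2 * pgQ y.2 - 1 ≤ 0 by linarith)]
    · have c1 : ContDiffOn ℝ ∞ (fun x : ℝ × (ℝ × ℂ) × ℝ => nrm x.2) {x | 0 < pgQ x.2} :=
        fun y m => ((contDiffAt_nrm sqR m).comp y contDiffAt_snd).contDiffWithinAt
      have c2 := c.comp (contDiffOn_fst.prodMk c1) fun y m => ⟨trivial, nrm_mem m⟩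
      have n : {x : ℝ × (ℝ × ℂ) × ℝ | 0 < pgQ x.2} ∈ 𝓝 x :=
        (isOpen_lt continuous_const cq.continuous).mem_nhds (lt_of_lt_of_le one_half_pos k)
      exact contDiffAt_snd.add ((Real.smoothTransition.contDiff.comp
        ((contDiff_const.mul cq).sub contDiff_const)).contDiffAt.smul
        ((c2.contDiffAt n).sub (c1.contDiffAt n)))
  · have q : pgQ y = 1 := m
    simp only [q, nrm_self m]
    rw [Real.smoothTransition.one_of_one_le (by norm_num), one_smul, add_sub_cancel]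

theorem ef_triv (h : Tube (Sph ℝ) ν 4) (pole : ∀ᶠ u in 𝓝 0, ν u = nrm (u, 1)) :
    ∃ (β : ℝ → ℝ) (ρ : (ℝ × ℂ) × ℝ → (ℝ × ℂ) × ℝ) (f : ℝ → (ℝ × ℂ) × ℝ → (ℝ × ℂ) × ℝ),
      ContDiff ℝ ∞ β ∧ (∀ r ≤ 1, β r = 0) ∧ (∀ r ≥ 3, β r = 1) ∧
      (∀ t z, ‖z‖ < 4 → ρ (ν (t, z)) = ν (t + β ‖z‖, z)) ∧
      (∀ y ∉ ν '' {u | ‖u.2‖ < 4}, ρ y = y) ∧ Triv ρ f := by
  let β : ℝ → ℝ := fun r => Real.smoothTransition ((r - 1) / 2)
  have cβ : ContDiff ℝ ∞ β :=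
    Real.smoothTransition.contDiff.comp ((contDiff_id.sub contDiff_const).div_const 2)
  have β0 : ∀ r ≤ 1, β r = 0 := fun r k => Real.smoothTransition.zero_of_nonpos (by linarith)
  have β1 : ∀ r ≥ 3, β r = 1 := fun r k => Real.smoothTransition.one_of_one_le (by linarith)
  have cb : ContDiff ℝ ∞ fun z : ℂ => β ‖z‖ - 1 := contDiff_iff_contDiffAt.2 fun z => by
    by_cases k : z = 0
    · refine (contDiffAt_const (c := (0 : ℝ) - 1)).congr_of_eventuallyEq ?_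
      filter_upwards [(isOpen_lt continuous_norm continuous_const).mem_nhds
        (show ‖z‖ < 1 by simp [k])] with y m
      rw [β0 _ (le_of_lt m)]
    · exact (cβ.contDiffAt.comp z (contDiffAt_norm ℝ k)).sub contDiffAt_const
  obtain ⟨D, cD, mD, eD, oD, D0, aD⟩ := exists_slide h cb (r₁ := 3) (by norm_num)
    fun z k => by rw [β1 _ k, sub_self]
  obtain ⟨b, b', c, c', i, e⟩ := efb_fib h (by norm_num)
  obtain ⟨f, cf, ef, pf⟩ := efb_ext (F := fun x => b' (x.1, D x.1 x.2))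
    (c'.comp (contDiffOn_fst.prodMk cD) fun x m => ⟨trivial, mD _ m.2⟩)
  obtain ⟨g, cg, eg, -⟩ := efb_ext (F := fun x => D (-x.1) (b x))
    (cD.comp (contDiffOn_fst.neg.prodMk c) fun x m => ⟨trivial, (i x.1 x.2 m.2).1⟩)
  refine ⟨β, D 1, f, cβ, β0, β1, fun t z k => ?_, oD 1, g, cf, cg, ?_, fun t y m => ?_⟩
  · rw [eD 1 t z k, ← h.1]
    exact congrArg ν (Prod.ext (by simp only; ring) rfl)
  · have p0 : ∀ᶠ y : (ℝ × ℂ) × ℝ in 𝓝 (0, 1), 0 < y.2 :=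
      (isOpen_lt continuous_const continuous_snd).mem_nhds (one_pos (α := ℝ))
    have c0 : ContinuousAt (fun y : (ℝ × ℂ) × ℝ => y.2⁻¹ • y.1) (0, 1) :=
      (continuousAt_snd.inv₀ one_ne_zero).smul continuousAt_fst
    have n : ∀ᶠ u : ℝ × ℂ in 𝓝 0, ‖u.2‖ < 1 :=
      (isOpen_lt continuous_snd.norm continuous_const).mem_nhds (by simp)
    have t0 : Filter.Tendsto (fun y : (ℝ × ℂ) × ℝ => y.2⁻¹ • y.1) (𝓝 (0, 1)) (𝓝 0) := by
      simpa using c0.tendsto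
    filter_upwards [p0, t0.eventually (pole.and (e.and n))] with y k m t
    refine pf t y ?_
    rw [← efa_back k]
    refine Eq.trans (congrArg (fun a => b' (t, a)) ?_) (m.2.1 t)
    refine (congrArg (D t) m.1.symm).trans ((eD t _ _ (m.2.2.trans (by norm_num))).trans ?_)
    rw [β0 _ m.2.2.le]
    exact congrArg ν (Prod.ext (by simp; ring) rfl)
  · have m1 := mD t m
    have m2 := (i t y m).1
    have m3 := mD (-t) m2
    rw [ef t y m, eg t y m, eg t _ (i t _ m1).2.1, ef t _ m3, ef _ y m, ef t _ (mD 1 m)]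
    refine ⟨(i t _ m1).2.1, m3, ?_, ?_, ?_⟩
    · simp only [(i t _ m1).2.2.2.1, aD, neg_add_cancel, D0]
    · simp only [aD, add_neg_cancel, D0, (i t y m).2.2.1]
    · simp only [aD, (i t _ (mD _ m)).2.2.2.2]

end Pool.Agent.Lib.MP_b2e238_gt
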