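import Pool.Agent.Lib.MP_b2e238_gt.R.PT
import Pool.Agent.Lib.MP_b2e238_gt.G.Main
import Pool.Agent.Lib.MP_b2e238_gt.E.FB
import Pool.Agent.Lib.MP_b2e238_gt.Defs2

/-! The data of the roll-spin exist. -/

open scoped ContDiff Topology
open Set Metric

noncomputable section

namespace Pool.Agent.Lib.MP_b2e238_gt

theorem em_range {ν : ℝ × ℂ → (ℝ × ℂ) × ℝ} (D : (ℝ × ℂ) × ℝ → (ℝ × ℂ) × ℝ) :
    D '' (range fun t => ν (t, 0)) = range fun t => (D ∘ ν) (t, 0) := (range_comp _ _).symm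

/-- The data of the roll-spin exist. -/
theorem exists_roll (s : ℤ) : ∃ F, Roll (6 * s + 1).natAbs F := by
  obtain ⟨p₀, ν₀', ν₀, b₀, conj, t₀', t₀, l₀⟩ := exists_pt s
  obtain ⟨D₀, D₀', d₀, e₀⟩ := ef_pole t₀ four_pos
  have b₁ := b₀.base d₀
  rw [em_range] at b₁
  obtain ⟨μ', μ, g, c, t', t, l, cg, g0, gν⟩ := exists_seif b₁ t₀' (t₀.dif d₀)
    (fun t z h => congrArg D₀ (l₀ t z h)) (by simpa [nrm] using e₀.self_of_nhds)
  simp only [← c] at b₁ cg g0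
  obtain ⟨D, D', d, e⟩ := ef_pole t four_pos
  have b := b₁.base d
  rw [em_range] at b
  obtain ⟨β, ρ, f, hβ, β0, β1, ρ1, ρ2, hf⟩ := ef_triv (t.dif d) e
  have m : MapsTo D' (Sph ℝ \ range fun t => (D ∘ μ) (t, 0)) (Sph ℝ \ range fun t => μ (t, 0)) :=
    fun y h => ⟨d.mG h.1, fun ⟨t, k⟩ => h.2 ⟨t, (congrArg D k).trans (d.fg y h.1)⟩⟩
  exact ⟨_, _, μ', D ∘ μ, g ∘ D', β, ρ, f, b, fun a ha => by simp only [Function.comp, conj a ha],
    t', t.dif d, fun t z h => congrArg D (l t z h), e,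
    cg.comp (d.cG.continuousOn.mono sdiff_subset) m, fun y h => g0 _ (m h), fun x z z0 h => by
      rw [Function.comp, Function.comp, d.gf _ (t.mem x (by linarith)), gν x z z0 h],
    hβ, β0, β1, ρ1, ρ2, hf, rfl⟩

end Pool.Agent.Lib.MP_b2e238_gt
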